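import Pool.Agent.helper748_mc.BinThm

set_option autoImplicit false

/-! # The motivic zeta functions of linear systems of plane curves, IV

Let `I = (f_j)`, where the `f_j` are forms of the same degree `d` in `x₀, x₁, x₂`. The local
motivic zeta function of `I` at the origin is computed from the ideal sheaf which `I` defines on
the projective plane, by blowing up points; see `ConeMot`, `ProjMot` (in
`Pool.Agent.W574.MO.FormDefs`), `PlaneMot` and `MotLocal` (in `Pool.Agent.W574.MO.Defs`). All
denominators, except possibly those which belong to `-3/d`, are known to belong to roots of `b_I`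
(`proj_of`), so that the question is whether `b_I(-3/d) = 0`; this is known if three of the forms
are algebraically independent. We prove it if some linear combination `g` of the `f_j` is in some
linear coordinates of the form `h x₂ ^ j (a x₂ ^ k + b) ^ n`, with `h`, `a`, `b` in `x₀`, `x₁`,
such that `h a b` has enough roots, counted as in `BinomialForm`.

The proof of `b(-3/d) = 0`, for a form `g` in the class (`g` is the linear combination):

* `ex_main`: a functional equation gives an identity
  `b(c) g ^ (K + 1) = ∑ (g ∂_i v_i(c) + (c - K) (∂_i g) v_i(c))` with forms `v_i(c)` of the degree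
  `d K + 1` which depend polynomially on `c`; so `b(c) g ^ c` is the divergence of `v(c) g ^ (c - K)`;
* `exact_two`: for `c = -3/d` this gives such an identity in the two variables `x₀`, `x₂`;
* `exists_betaSys`, `Fn`, `Fn_exact`: for `x₀ = t`, `x₁ = 1` the integrals of `x₂ ^ m g ^ (-3/d)`
  over `x₂` are beta integrals; as `θ` and `μ` are not integers, they can be defined by analytic
  continuation, and they vanish on derivatives with respect to `x₂`;
* `gP_deriv`, `gP_poly`, `bin_eq`: their derivatives with respect to `t`; this gives a differential
  equation of the first order with a solution `κ / (h a b) ^ M`, `κ` a polynomial;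
* `ord_ode`: the order of the solution at each root of `h a b`; `ode_count`: the sum of these orders
  would be greater than the degree of `κ`. (So the integral of `g ^ (-3/d) Ω` over the lines through
  `(0 : 0 : 1)` is a form `∏ (t - t_i) ^ e_i dt` which is not exact.) -/

namespace Pool.Agent.Results.MP_4e5fcd_ag.BinomialSystems

open MvPolynomial Pool.Agent.W574.CN Pool.Agent.W574.MO Pool.Agent.W574.HS Pool.Agent.W574.SM
  Pool.Agent.H628R4.TP Pool.Agent.Helper748.MC

/-- Let `f_j` be forms of the same degree `d` in three variables, such that some linear combination `g
= ∑ lam_j f_j` satisfies `BinomialForm d g`, let `b` be a polynomial which satisfies a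
Bernstein-Sato functional equation of `f_1, ..., f_r` (in particular the Bernstein-Sato polynomial
`b_I` of the ideal `I = (f_j)`), and let `Z ∈ M⟦T⟧` be the local motivic zeta function of `I` at
the origin. Then `Z` lies in the ring `M[T][(1 - L⁻ⁿ Tᵃ)⁻¹]`, where the pairs `a, n ≥ 1` are such
that `-n/a` is a root of `b`. -/
theorem result {M : Type} [CommRing M] (L : Mˣ) {ι : Type} [Fintype ι]
    (f : ι → MvPolynomial (Fin 3) ℂ) (d : ℕ)
    (hf : ∀ j, (f j).IsHomogeneous d) (lam : ι → ℂ) (h : BinomialForm d (lcomb f lam))
    (b : Polynomial ℂ) (hb : IsFunctionalEq f b) (Z : PowerSeries M) (hZ : ConeMot L f d Z) :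
    Z ∈ DenRing L (RootPair b) := by
  classical
  exact mot_local_of L f d hf b hb (bin_ideal f d hf lam h b hb) Z hZ

end Pool.Agent.Results.MP_4e5fcd_ag.BinomialSystems
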