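import Pool.Agent.helper748_mc.FanThm

set_option autoImplicit false

/-! # The motivic zeta functions of linear systems of plane curves, II

Let `I = (f_j)`, where the `f_j` are forms of the same degree `d` in `x₀, x₁, x₂`. The local
motivic zeta function of `I` at the origin is computed from the ideal sheaf which `I` defines on
the projective plane, by blowing up points; see `ConeMot`, `ProjMot` (in
`Pool.Agent.W574.MO.FormDefs`), `PlaneMot` and `MotLocal` (in `Pool.Agent.W574.MO.Defs`). All
denominators, except possibly those which belong to `-3/d`, are known to belong to roots of `b_I`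
(`proj_of`), so that the question is whether `b_I(-3/d) = 0`; this is known if three of the forms
are algebraically independent. We prove it if `d ≠ 3` and some linear combination `g` of the `f_j`
defines a curve with a point of multiplicity `d - 1` such that some line which is a simple factor of
the tangent cone at this point is not a component of the curve.

The proof of `b(-3/d) = 0`, for a form `g` in the class (`g` is the linear combination):

* `ex_main`: a functional equation gives an identity
  `b(c) g ^ (K + 1) = ∑ (g ∂_i v_i(c) + (c - K) (∂_i g) v_i(c))` with forms `v_i(c)` of the degree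
  `d K + 1` which depend polynomially on `c`; so `b(c) g ^ c` is the divergence of `v(c) g ^ (c - K)`;
* `exact_two`: for `c = -3/d` this gives such an identity in the two variables `x₀`, `x₂`;
* `exists_primz`, `fibre_eq`: as `g = x₂ A + B` has the degree `1` in `x₂`, and as `3/d` is not an
  integer, one can integrate uniquely over `x₂`, at the cost of powers of `A` in the denominator;
* `order_contra`: this gives a differential equation in one variable for the value of the integral
  at `x₂ = 0`, and a comparison of the orders of the poles at a simple zero of `A` at which `B` does
  not vanish gives a contradiction. (This is the residue of `g ^ (1 - 3/d) / A` at this point.)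

For `d = 3` the number `-3/d = -1` need not be a root of `b_I`. -/

namespace Pool.Agent.Results.MP_4e5fcd_ag.LargeMultiplicitySystems

open MvPolynomial Pool.Agent.W574.CN Pool.Agent.W574.MO Pool.Agent.W574.HS Pool.Agent.W574.SM
  Pool.Agent.H628R4.TP Pool.Agent.Helper748.MC

/-- Let `f_j` be forms of the same degree `d > 0`, `d ≠ 3`, in three variables, such that some linear
combination `∑ lam_j f_j` is, in some linear coordinates, of the form
`x₀ x₂ a(x₀, x₁) + b(x₀, x₁)` with `a(0, 1) ≠ 0` and `b(0, 1) ≠ 0`, let `b` be a polynomial which
satisfies a Bernstein-Sato functional equation of `f_1, ..., f_r` (in particular the Bernstein-Sato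
polynomial `b_I` of the ideal `I = (f_j)`), and let `Z ∈ M⟦T⟧` be the local motivic zeta function of
`I` at the origin. Then `Z` lies in the ring `M[T][(1 - L⁻ⁿ Tᵃ)⁻¹]`, where the pairs `a, n ≥ 1` are
such that `-n/a` is a root of `b`. -/
theorem result {M : Type} [CommRing M] (L : Mˣ) {ι : Type} [Fintype ι]
    (f : ι → MvPolynomial (Fin 3) ℂ) (d : ℕ) (hd : 0 < d) (hd3 : d ≠ 3)
    (hf : ∀ j, (f j).IsHomogeneous d) (lam : ι → ℂ) (h : FanForm (lcomb f lam))
    (b : Polynomial ℂ) (hb : IsFunctionalEq f b) (Z : PowerSeries M) (hZ : ConeMot L f d Z) :
    Z ∈ DenRing L (RootPair b) := by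
  classical
  exact mot_local_of L f d hf b hb (fan_ideal f d hd hd3 hf lam h b hb) Z hZ

end Pool.Agent.Results.MP_4e5fcd_ag.LargeMultiplicitySystems
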