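import Pool.Agent.helper748_mc.Mot

set_option autoImplicit false

/-! # The motivic monodromy conjecture for strictly semistable linear systems of plane curves

Let `I = (f_j)`, where the `f_j` are forms of the same degree `d` in `x₀, x₁, x₂`. The local
motivic zeta function of `I` at the origin is computed from the ideal sheaf which `I` defines on
the projective plane, by blowing up points; see `ConeMot`, `ProjMot` (in
`Pool.Agent.W574.MO.FormDefs`), `PlaneMot` and `MotLocal` (in `Pool.Agent.W574.MO.Defs`). All
denominators, except possibly those which belong to `-3/d`, are known to belong to roots of `b_I`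
(`proj_of`), so that the question is whether `b_I(-3/d) = 0`; this is known if three of the forms
are algebraically independent.

The proof of `b_I(-3/d) = 0`, if a linear combination `g` of the `f_j` is strictly semistable:

* `ex_main`: a functional equation of the ideal gives an identity
  `b(c) g ^ (K + 1) = ∑ (g ∂_i v_i(c) + (c - K) (∂_i g) v_i(c))` with forms `v_i(c)` of the degree
  `d K + 1` which depend polynomially on `c`; so `b(c) g ^ c` is the divergence of `v(c) g ^ (c - K)`;
* `exact_initial`: if `g ^ s` is such a divergence, and all monomials of `g` have a weight `≥ 0`
  for a weight `w` with the sum `0`, then the same holds for the part of the weight `0` of `g`;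
* `log_eq`, `uni_main`: if moreover the barycenter lies in the convex hull of the monomials of the
  weight `0`, one gets a differential equation in one variable which has no solution for
  `s = -3/d`;
* `exists_face`: for strictly semistable forms there are linear coordinates in which this
  applies. -/

namespace Pool.Agent.Results.MP_4e5fcd_ag.StrictlySemistableSystems

open MvPolynomial Pool.Agent.W574.MO Pool.Agent.W574.SM Pool.Agent.Helper748.MC

/-- Let `f_j` be forms of the same degree `d > 0` in three variables, such that some linear
combination `∑ lam_j f_j` is strictly semistable (or satisfies `BoundaryForm`), let `b` be a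
polynomial which satisfies a Bernstein-Sato functional equation of `f_1, ..., f_r` (in particular the
Bernstein-Sato polynomial `b_I` of the ideal `I = (f_j)`), and let `Z ∈ M⟦T⟧` be the local motivic
zeta function of `I` at the origin. Then `Z` lies in the ring `M[T][(1 - L⁻ⁿ Tᵃ)⁻¹]`, where the
pairs `a, n ≥ 1` are such that `-n/a` is a root of `b`. -/
theorem result {M : Type} [CommRing M] (L : Mˣ) {ι : Type} [Fintype ι]
    (f : ι → MvPolynomial (Fin 3) ℂ) (d : ℕ) (hd : 0 < d) (hf : ∀ j, (f j).IsHomogeneous d)
    (lam : ι → ℂ) (h : StrictlySemistable (lcomb f lam) ∨ BoundaryForm d (lcomb f lam))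
    (b : Polynomial ℂ) (hb : IsFunctionalEq f b) (Z : PowerSeries M) (hZ : ConeMot L f d Z) :
    Z ∈ DenRing L (RootPair b) := by
  classical
  exact mot_local_of L f d hf b hb (root_of_form f d hd hf b hb (Or.inr ⟨lam, h⟩)) Z hZ

end Pool.Agent.Results.MP_4e5fcd_ag.StrictlySemistableSystems
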